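import Pool.Agent.Helper77.SO.St3

/-! # MP_7a9ddc_co, project SO, module R12 -/

set_option autoImplicit false

namespace Pool.Agent.Helper53.SO.R12

open Equiv Equiv.Perm Pool.Agent.Helper35.PM Pool.Agent.Helper77.HY Pool.Agent.Helper77.OF4 Pool.Agent.Helper77.SO

theorem afv3 (hNv : StNv) (V : Type) [Finite V] (G : SimpleGraph V) (R : Rot G) (X W : Finset V)
    (v : V) (h : dX G X v ≤ 3) : AFV R X W v := by
  by_contra hn
  obtain ⟨h1, h2⟩ := hNv V G R X W v hn
  have h3 : {u : V | u ∈ X ∧ G.Adj v u ∧ u ∈ W}.ncard + {u : V | u ∈ X ∧ G.Adj v u ∧ u ∉ W}.ncard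
      = dX G X v := by
    rw [dX, ← Set.ncard_union_eq _ (Set.toFinite _) (Set.toFinite _)]
    · congr 1
      ext u
      simp only [Set.mem_union, Set.mem_setOf_eq]
      tauto
    · rw [Set.disjoint_left]
      intro u hu hu'
      exact hu'.2.2 hu.2.2
  omega

theorem main (hNv : StNv) (hAcc : StAcc) (hAdd : StAdd) : StR12 := by
  intro V _ _ G R X x hx hd hW
  obtain ⟨W, hW⟩ := hW
  have hins : insert x (X.erase x) = X := Finset.insert_erase hx
  have hxn : x ∉ X.erase x := Finset.notMem_erase x X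
  obtain ⟨hA1, hA2⟩ := hAdd V G R (X.erase x) W x hxn hW
  rw [hins] at hA1 hA2
  have hWX : W ⊆ X.erase x := hW.1
  -- the neighbours of x
  have hsub : ∀ v, v ∈ X.erase x → v ∈ X := fun v hv => Finset.mem_of_mem_erase hv
  have hcard : ∀ S : Set V, (∀ v ∈ S, v ∈ X ∧ G.Adj x v) → S.ncard ≤ dX G X x := by
    intro S hS
    exact Set.ncard_le_ncard (fun v hv => hS v hv) (Set.toFinite _)
  rcases hd with hd | ⟨hd, hd3⟩
  · have huniq : ∀ u v, u ∈ X → G.Adj x u → v ∈ X → G.Adj x v → u = v := by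
      intro u v hu hau hv hav
      have h1 : {u : V | u ∈ X ∧ G.Adj x u}.ncard ≤ 1 := hd
      exact (Set.ncard_le_one (Set.toFinite _)).1 h1 u ⟨hu, hau⟩ v ⟨hv, hav⟩
    have hAx : ∀ W', AFV R X W' x := fun W' => afv3 hNv V G R X W' x (by omega)
    have hc1 : {v : V | v ∈ X.erase x ∧ v ∉ W ∧ G.Adj x v}.ncard ≤ 1 :=
      le_trans (hcard _ (fun v hv => ⟨hsub v hv.1, hv.2.2⟩)) hd
    by_cases hex : ∃ v ∈ X.erase x, G.Adj x v ∧ v ∉ W
    · obtain ⟨v, hvX, hav, hvW⟩ := hex
      have hAv : AFV R (X.erase x) W v := hW.2.2.2 v hvX hvW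
      have hac := hAcc V G R (X.erase x) W v x hxn hWX hav.symm hAv
      rw [hins] at hac
      rcases hac with hac | hac
      · refine ⟨insert x W, hA1 ?_ ?_⟩
        · intro u hu hau
          have := huniq u v (hsub u (hWX hu)) hau (hsub v hvX) hav
          rw [this] at hu
          exact hvW hu
        · intro u hu hau
          have := huniq u v (hsub u hu) hau (hsub v hvX) hav
          rw [this]
          exact hac
      · refine ⟨W, hA2 hc1 ?_ (hAx W)⟩
        intro u hu _ hau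
        have := huniq u v (hsub u hu) hau (hsub v hvX) hav
        rw [this]
        exact hac
    · refine ⟨W, hA2 hc1 ?_ (hAx W)⟩
      intro u hu huW hau
      exact absurd ⟨u, hu, hau, huW⟩ hex
  · have hAx : ∀ W', AFV R X W' x := fun W' => afv3 hNv V G R X W' x (by omega)
    have hAn : ∀ W' v, v ∈ X → G.Adj x v → AFV R X W' v := fun W' v hv hav =>
      afv3 hNv V G R X W' v (hd3 v hv hav)
    by_cases hex : ∃ v ∈ W, G.Adj x v
    · obtain ⟨v, hvW, hav⟩ := hex
      refine ⟨W, hA2 ?_ ?_ (hAx W)⟩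
      · have hlt : {v : V | v ∈ X.erase x ∧ v ∉ W ∧ G.Adj x v}.ncard <
            {u : V | u ∈ X ∧ G.Adj x u}.ncard := by
          apply Set.ncard_lt_ncard _ (Set.toFinite _)
          refine ⟨fun u hu => ⟨hsub u hu.1, hu.2.2⟩, fun hss => ?_⟩
          have := hss (show v ∈ {u : V | u ∈ X ∧ G.Adj x u} from ⟨hsub v (hWX hvW), hav⟩)
          exact this.2.1 hvW
        have hd' : {u : V | u ∈ X ∧ G.Adj x u}.ncard = 2 := hd
        omega
      · intro u hu _ hau
        exact hAn W u (hsub u hu) hau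
    · refine ⟨insert x W, hA1 ?_ ?_⟩
      · intro u hu hau
        exact hex ⟨u, hu, hau⟩
      · intro u hu hau
        exact hAn _ u (hsub u hu) hau

end Pool.Agent.Helper53.SO.R12
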